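import Pool.Agent.Lib.MP_b5021c_nt.IfaceUF

/-!
# Lemma UF, the end: `|F_k| ≤ 1` (one variable), row UF_F
-/

namespace Pool.Agent.B5.Uf07

open Polynomial Finset

/-- A polynomial `G` with `G_0 = 0`, `|G_l| ≤ 1` for `l ≥ 2`, and `G(y) ≤ x` where `|y| = x`. -/
theorem one_coef (G : ℤ[X]) (x : ℝ) (hx : 0 < x) (hx2 : x < 1) (h0 : G.coeff 0 = 0)
    (hb : ∀ l, 2 ≤ l → |G.coeff l| ≤ 1) (s : ℝ) (hs : |s| = 1)
    (h : (aeval (s * x) G : ℝ) ≤ x) : (G.coeff 1 : ℝ) * s * (1 - x) < 1 := by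
  set N := G.natDegree + 2 with hN
  have he : (aeval (s * x) G : ℝ) = ∑ l ∈ range (N + 1), (G.coeff l : ℝ) * (s * x) ^ l := by
    rw [aeval_eq_sum_range' (n := N + 1) (by omega)]
    refine sum_congr rfl fun l _ => ?_
    simp [zsmul_eq_mul]
  have h3 : ∑ l ∈ range (N + 1), (G.coeff l : ℝ) * (s * x) ^ l
      = (G.coeff 1 : ℝ) * (s * x) + ∑ l ∈ range (N - 1), (G.coeff (l + 2) : ℝ) * (s * x) ^ (l + 2) := by
    have : N + 1 = (N - 1) + 1 + 1 := by omega
    rw [this, sum_range_succ', sum_range_succ']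
    simp [h0]
    ring
  have h4 : -(∑ l ∈ range (N - 1), x ^ (l + 2))
      ≤ ∑ l ∈ range (N - 1), (G.coeff (l + 2) : ℝ) * (s * x) ^ (l + 2) := by
    rw [← sum_neg_distrib]
    refine sum_le_sum fun l _ => ?_
    have h5 : |(G.coeff (l + 2) : ℝ) * (s * x) ^ (l + 2)| ≤ x ^ (l + 2) := by
      rw [abs_mul, abs_pow, abs_mul, hs, abs_of_pos hx, one_mul]
      have h6 : |(G.coeff (l + 2) : ℝ)| ≤ 1 := by
        have := hb (l + 2) (by omega)
        rw [← Int.cast_abs]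
        exact_mod_cast this
      have h7 : 0 ≤ x ^ (l + 2) := by positivity
      nlinarith
    exact (abs_le.mp h5).1
  have h8 : (∑ l ∈ range (N - 1), x ^ (l + 2)) * (1 - x) < x ^ 2 := by
    have h9 : (∑ l ∈ range (N - 1), x ^ (l + 2)) = x ^ 2 * ∑ l ∈ range (N - 1), x ^ l := by
      rw [mul_sum]
      refine sum_congr rfl fun l _ => ?_
      ring
    have h10 : (∑ l ∈ range (N - 1), x ^ l) * (1 - x) = 1 - x ^ (N - 1) := by
      have := geom_sum_mul_neg x (N - 1)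
      exact this
    rw [h9, mul_assoc, h10]
    have h11 : 0 < x ^ (N - 1) := by positivity
    have h12 : 0 < x ^ 2 := by positivity
    nlinarith
  rw [he, h3] at h
  have h13 : (G.coeff 1 : ℝ) * (s * x) * (1 - x) < x * (1 - x) + x ^ 2 := by
    have h14 : (G.coeff 1 : ℝ) * (s * x) ≤ x + ∑ l ∈ range (N - 1), x ^ (l + 2) := by linarith
    nlinarith
  have h15 : ((G.coeff 1 : ℝ) * s * (1 - x)) * x < 1 * x := by nlinarith
  exact lt_of_mul_lt_mul_right h15 hx.le

theorem ab_le (F : ℤ[X]) (x : ℝ) (hx : 0 < x) (hx2 : x ^ 2 + 2 * x ≤ 1)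
    (h : ∀ m : ℕ, 1 ≤ m → ∃ G : ℤ[X], G.coeff 0 = 0 ∧ (∀ l, 1 ≤ l → G.coeff l = F.coeff (l * m)) ∧
      (aeval x G : ℝ) ≤ x ∧ (aeval (-x) G : ℝ) ≤ x) :
    ∀ k, 1 ≤ k → |F.coeff k| ≤ 1 := by
  have hx1 : x < 1 / 2 := by nlinarith
  suffices H : ∀ d k : ℕ, 1 ≤ k → F.natDegree < k + d → |F.coeff k| ≤ 1 by
    intro k hk
    exact H (F.natDegree + 1) k hk (by omega)
  intro d
  induction d with
  | zero =>
    intro k _ hd
    rw [coeff_eq_zero_of_natDegree_lt (by omega)]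
    simp
  | succ d ih =>
    intro k hk hd
    obtain ⟨G, g0, gl, g1, g2⟩ := h k hk
    have hb : ∀ l, 2 ≤ l → |G.coeff l| ≤ 1 := by
      intro l hl
      rw [gl l (by omega)]
      refine ih (l * k) (by nlinarith) ?_
      nlinarith
    have hG1 : G.coeff 1 = F.coeff k := by rw [gl 1 le_rfl, one_mul]
    have e1 := one_coef G x hx (by linarith) g0 hb 1 (by simp) (by simpa using g1)
    have e2 := one_coef G x hx (by linarith) g0 hb (-1) (by simp) (by simpa using g2)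
    rw [hG1] at e1 e2
    have f1 : (F.coeff k : ℝ) < 2 := by
      by_contra hc
      push Not at hc
      nlinarith
    have f2 : (-2 : ℝ) < (F.coeff k : ℝ) := by
      by_contra hc
      push Not at hc
      nlinarith
    have f3 : F.coeff k < 2 := by exact_mod_cast f1
    have f4 : -2 < F.coeff k := by exact_mod_cast f2
    rw [abs_le]
    omega

/-- (UF_F) -/
theorem uff_st : UffS := by
  intro N F x hN hx hxN h0 h k
  have hN' : (3 : ℝ) ≤ N := by exact_mod_cast hN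
  have hx2 : x ^ 2 + 2 * x ≤ 1 := by
    have h1 : x * (x⁻¹ - x) = x * ((N : ℝ) - 1) := by rw [hxN]
    have h2 : x * x⁻¹ = 1 := mul_inv_cancel₀ hx.ne'
    have h3 : x * 2 ≤ x * ((N : ℝ) - 1) := mul_le_mul_of_nonneg_left (by linarith) hx.le
    nlinarith
  rcases Nat.eq_zero_or_pos k with hk | hk
  · rw [hk, h0]
    simp
  · refine ab_le F x hx hx2 (fun m hm => ?_) k hk
    have hc : ∀ j, (contract m F).coeff j = F.coeff (m * j) := by
      intro j
      rw [coeff_contract (by omega), mul_comm]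
    obtain ⟨h1, h2⟩ := h m (contract m F) hm hc
    refine ⟨contract m F, ?_, fun l _ => ?_, h1, h2⟩
    · rw [hc, mul_zero, h0]
    · rw [hc, mul_comm]

end Pool.Agent.B5.Uf07
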