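import Pool.Agent.Lib.MP_b5021c_nt.UF.H07.Psi

/-!
# Lemma UF: the substitution `z → z^m` with a gauge (row UF_SUB)
-/

set_option linter.unusedSectionVars false

namespace Pool.Agent.B5.Uf07

open scoped LaurentPolynomial
open Pool.Agent.B5 Pool.Agent.B5.H83 Pool.Agent.B5.Dcm

section

variable {L : Type} [AddCommGroup L] [Module.Free ℤ L] [Module.Finite ℤ L]

theorem cst_mul_cst (a b : RO ℤ) : (cst a : AO ℤ L) * cst b = cst (a * b) := by
  unfold cst
  rw [AddMonoidAlgebra.single_mul_single, add_zero]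

theorem cst_mz_unit (n : ℤ) : IsUnit (cst (mz n 1) : AO ℤ L) := by
  refine IsUnit.of_mul_eq_one (cst (mz (-n) 1)) ?_
  rw [cst_mul_cst, mz_mul, add_neg_cancel, one_mul]
  rfl

theorem psi_sharp (gam : L →+ ℤ) (m : ℕ) (A : AO ℤ L) :
    sharp (psi gam m A) = psi gam m (sharp A) := by
  let f : AO ℤ L →+ AO ℤ L := (sharp (O := ℤ) (L := L)).toAddMonoidHom.comp
    (psi gam m).toAddMonoidHom
  let f' : AO ℤ L →+ AO ℤ L := (psi gam m).toAddMonoidHom.comp
    (sharp (O := ℤ) (L := L)).toAddMonoidHom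
  refine ext2 f f' A fun a n _ => ?_
  change sharp (psi gam m (AddMonoidAlgebra.single a (mz n ((A.coeff a).coeff n)))) =
    psi gam m (sharp (AddMonoidAlgebra.single a (mz n ((A.coeff a).coeff n))))
  generalize (A.coeff a).coeff n = c
  rw [psi_single, exL_mz, mz_mul, Pool.Agent.B5.H24.sharp_single, rsh_mz,
    Pool.Agent.B5.H24.sharp_single, rsh_mz, psi_single, exL_mz, mz_mul, map_neg, mul_one, mul_one]
  congr 2
  ring

theorem irr_psi (hU : UnitAS) {gam : L →+ ℤ} {n : ℤ} {m : ℕ} (hm : 0 < m) {D D' : AO ℤ L}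
    (h : D = cst (mz n 1) * psi gam m D') (hD : Irreducible D) : Irreducible D' := by
  refine ⟨fun h1 => ?_, fun {A B} hAB => ?_⟩
  · apply hD.1
    rw [h]
    exact (cst_mz_unit n).mul (h1.map (psi gam m))
  · rw [hAB, map_mul, ← mul_assoc] at h
    rcases hD.2 h with h1 | h1
    · left
      exact psi_isUnit hU hm (isUnit_of_mul_isUnit_right h1)
    · right
      exact psi_isUnit hU hm h1

theorem un_psi (hU : UnitAS) {gam : L →+ ℤ} {n : ℤ} {m : ℕ} (hm : 0 < m) {D D' : AO ℤ L}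
    (h : D = cst (mz n 1) * psi gam m D') (hD0 : D' ≠ 0) (hD : Unitary D) : Unitary D' := by
  unfold Unitary at hD ⊢
  obtain ⟨u, hu⟩ := hD
  have h1 : sharp D = cst (mz (-n) 1) * psi gam m (sharp D') := by
    rw [h, map_mul, psi_sharp]
    congr 1
    unfold cst
    rw [Pool.Agent.B5.H24.sharp_single, rsh_mz, neg_zero]
    congr 1
  rw [h1, h] at hu
  have h2 : psi gam m (sharp D') * (cst (mz (-n + -n) 1) * (u : AO ℤ L)) = psi gam m D' := by
    have h3 : (cst (mz (-n) 1) : AO ℤ L) * cst (mz n 1) = 1 := by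
      rw [cst_mul_cst, mz_mul, neg_add_cancel, one_mul]
      rfl
    have h4 : (cst (mz (-n + -n) 1) : AO ℤ L) = cst (mz (-n) 1) * cst (mz (-n) 1) := by
      rw [cst_mul_cst, mz_mul, one_mul]
    calc psi gam m (sharp D') * (cst (mz (-n + -n) 1) * (u : AO ℤ L))
        = cst (mz (-n) 1) * (cst (mz (-n) 1) * psi gam m (sharp D') * (u : AO ℤ L)) := by
          rw [h4]; ring
      _ = (cst (mz (-n) 1) * cst (mz n 1)) * psi gam m D' := by rw [hu]; ring
      _ = _ := by rw [h3, one_mul]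
  have hs : sharp D' ≠ 0 := by
    intro h0
    rw [h0, map_zero, zero_mul] at h2
    exact hD0 (psi_inj (gam := gam) hm (by rw [← h2, map_zero]))
  obtain ⟨V, hV, h5⟩ := psi_unit hU hm hs (((cst_mz_unit _)).mul u.isUnit) h2
  exact ⟨hV.unit, h5⟩

theorem exists_root (m : ℕ) (hm : 0 < m) (z : Circle) : ∃ w : Circle, w ^ m = z := by
  refine ⟨Circle.exp (Complex.arg (z : ℂ) / m), ?_⟩
  have h1 : Circle.exp (Complex.arg (z : ℂ) / m) ^ m = Circle.exp (m * (Complex.arg (z : ℂ) / m)) := by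
    apply Circle.ext
    rw [Circle.coe_pow, Circle.coe_exp, Circle.coe_exp, ← Complex.exp_nat_mul]
    congr 1
    push_cast
    ring
  rw [h1, mul_div_cancel₀ _ (by exact_mod_cast hm.ne')]
  exact Circle.exp_arg z

theorem Ph_psi {M : Type} [AddCommGroup M] [Module ℂ M] (gam : L →+ ℤ) (m : ℕ) (z : Circle)
    (u : AddChar L Circle) (c : L → M) (A : AO ℤ L) :
    Ph z (twist u (-gam) z) c (psi gam m A) = Ph (z ^ m) u c A := by
  let f : AO ℤ L →+ M := (Ph z (twist u (-gam) z) c).comp (psi gam m).toAddMonoidHom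
  let f' : AO ℤ L →+ M := Ph (z ^ m) u c
  refine ext2 f f' A fun a n _ => ?_
  change Ph z (twist u (-gam) z) c
      (psi gam m (AddMonoidAlgebra.single a (mz n ((A.coeff a).coeff n)))) =
    Ph (z ^ m) u c (AddMonoidAlgebra.single a (mz n ((A.coeff a).coeff n)))
  generalize (A.coeff a).coeff n = d
  rw [psi_single, exL_mz, mz_mul, Ph_single, Ph_single, evR_mz, evR_mz, mul_one]
  congr 1
  have h1 : (twist u (-gam) z) a = u a * z ^ (-gam a) := rfl
  rw [h1, zpow_add, zpow_neg, ← zpow_natCast z m, ← zpow_mul]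
  have h2 : ((z ^ (gam a) : Circle) : ℂ) * (((z ^ (gam a))⁻¹ : Circle) : ℂ) = 1 := by
    rw [← Circle.coe_mul, mul_inv_cancel, Circle.coe_one]
  rw [Circle.coe_mul, Circle.coe_mul]
  linear_combination (Coef.emb d * ((z ^ ((m : ℤ) * n) : Circle) : ℂ) * (u a : ℂ)) * h2

theorem sl_psi (gam : L →+ ℤ) (m : ℕ) (n : ℤ) (lam : L →+ ℤ) (z : Circle) (u : AddChar L Circle)
    (A : AO ℤ L) : sl (twist u (-gam) z) lam (spec z (cst (mz n 1) * psi gam m A)) =
      ((z ^ n : Circle) : ℂ) • sl u lam (spec (z ^ m) A) := by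
  rw [sl_eq_Ph, sl_eq_Ph, Ph_cst, Ph_psi, evR_mz, map_one, one_mul]

theorem supp_eq {gam : L →+ ℤ} {n : ℤ} {m : ℕ} (hm : 0 < m) {D D' : AO ℤ L}
    (h : D = cst (mz n 1) * psi gam m D') : supp D = supp D' := by
  rw [h, supp_cst (mz_ne one_ne_zero), supp_psi hm]

theorem st_psi {gam : L →+ ℤ} {n : ℤ} {m : ℕ} (hm : 0 < m) {D D' : AO ℤ L}
    (h : D = cst (mz n 1) * psi gam m D') (hD : Stable D) : Stable D' := by
  obtain ⟨h0, lam, hp, hs⟩ := hD
  have hsu := supp_eq hm h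
  have h0' : D'.coeff 0 ≠ 0 := by
    have h1 : (0 : L) ∈ supp D := h0
    rw [hsu] at h1
    exact h1
  refine ⟨h0', lam, fun a ha => ?_, fun z hz u s hs1 => ?_⟩
  · refine hp a ?_
    rw [Finsupp.mem_support_iff] at ha ⊢
    have h1 : a ∈ supp D' := ha
    rw [← hsu] at h1
    exact h1
  · obtain ⟨w, rfl⟩ := exists_root m hm z
    have h1 : evR w (D.coeff 0) ≠ 0 := by
      rw [h, H96.cst_mul_coeff, psi_coeff, map_mul, map_mul, evR_exL, evR_mz, evR_mz, map_one,
        one_mul, one_mul]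
      exact mul_ne_zero (Circle.coe_ne_zero _) (mul_ne_zero hz (Circle.coe_ne_zero _))
    have h2 := hs w h1 (twist u (-gam) w) s hs1
    rw [h, sl_psi, Polynomial.eval_smul, smul_eq_mul] at h2
    exact right_ne_zero_of_mul h2

theorem dd_psi {P : Type} [Fintype P] [DecidableEq P] (hU : UnitAS) {phi : L →+ (P → ℤ)}
    {gam : L →+ ℤ} {n : ℤ} {m : ℕ} (hm : 0 < m) {D D' : AO ℤ L}
    (h : D = cst (mz n 1) * psi gam m D') (hD : DD phi D) : DD phi D' := by
  have hs := supp_eq hm h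
  have hst := st_psi hm h hD.st
  refine ⟨hD.inj, fun a ha => hD.bin a (by rw [hs]; exact ha), hst, ?_, irr_psi hU hm h hD.irr, ?_⟩
  · refine un_psi hU hm h ?_ hD.un
    rintro rfl
    exact hst.1 rfl
  · rw [← hs]
    exact hD.spn

theorem cl_psi (gam : L →+ ℤ) (m : ℕ) (k : L →+ ℤ) (S : L) (h : k S = 1) (s : ℤˣ) (A : AO ℤ L) :
    cl k S h (H40.uT s (-gam S)) (psi gam m A) =
      psi (gam.comp (incl (Ker k))) m (cl k S h (H40.uT s 0) A) := by
  let f : AO ℤ L →+ AO ℤ (Ker k) := (cl k S h (H40.uT s (-gam S))).toAddMonoidHom.comp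
    (psi gam m).toAddMonoidHom
  let f' : AO ℤ L →+ AO ℤ (Ker k) := (psi (gam.comp (incl (Ker k))) m).toAddMonoidHom.comp
    (cl k S h (H40.uT s 0)).toAddMonoidHom
  refine ext2 f f' A fun a n _ => ?_
  change cl k S h (H40.uT s (-gam S))
      (psi gam m (AddMonoidAlgebra.single a (mz n ((A.coeff a).coeff n)))) =
    psi (gam.comp (incl (Ker k))) m
      (cl k S h (H40.uT s 0) (AddMonoidAlgebra.single a (mz n ((A.coeff a).coeff n))))
  generalize (A.coeff a).coeff n = c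
  have hz : ∀ j : ℤ, ((H40.uT s j : (RO ℤ)ˣ) : RO ℤ) = mz j (s : ℤ) := by
    intro j
    rw [H40.uT_val, ← LaurentPolynomial.single_eq_C_mul_T]
    rfl
  rw [psi_single, exL_mz, mz_mul, cl_single, zpow_mz _ _ s (hz _), mz_mul, cl_single,
    zpow_mz _ _ s (hz _), mz_mul, psi_single, exL_mz, mz_mul]
  congr 2
  · rw [AddMonoidHom.comp_apply, incl_apply, prj_coe, map_sub, map_zsmul, smul_eq_mul]
    ring
  · ring

end

/-- (UF_SUB) -/
theorem subz_st (hU : UnitAS) : SubzS := by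
  intro P L _ _ _ _ _ phi D gam n m hD hm h
  obtain ⟨D', h1, h2⟩ := psi_ex gam n (m := m) (by omega) D h
  refine ⟨D', dd_psi hU (by omega) h1 hD, h2, ?_⟩
  intro k0 S h0 s a j
  have h3 : cl k0 S h0 (H40.uT s (-gam S)) D =
      cst (mz n 1) * psi (gam.comp (incl (Ker k0))) m (cl k0 S h0 (H40.uT s 0) D') := by
    rw [h1, map_mul, cl_psi]
    congr 1
    unfold cst
    rw [cl_single, map_zero, map_zero, zpow_zero, Units.val_one, mul_one]
  rw [h3, H96.cst_mul_coeff, psi_coeff, mz_mul_coeff, mul_comm, mz_mul_coeff,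
    ← exL_coeff (show 0 < m by omega)]
  congr 1
  rw [AddMonoidHom.comp_apply, incl_apply]
  ring

end Pool.Agent.B5.Uf07
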