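import Pool.Agent.Lib.MP_b5021c_nt.IfaceUF
import Pool.Agent.Lib.MP_b5021c_nt.DCM.H61.Exp

/-!
# Lemma UF: the substitution `z → z^m` with a gauge (row UF_SUB), algebra
-/

set_option linter.unusedSectionVars false

namespace Pool.Agent.B5.Uf07

open scoped LaurentPolynomial
open Pool.Agent.B5 Pool.Agent.B5.H83 Pool.Agent.B5.Dcm

section psi

variable {L : Type} [AddCommGroup L]

/-- `w^a q(z) → z^(gam a) q(z^m) w^a` -/
noncomputable def psi (gam : L →+ ℤ) (m : ℕ) : AO ℤ L →+* AO ℤ L :=
  AddMonoidAlgebra.liftNCRingHom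
    ((AddMonoidAlgebra.singleZeroRingHom (R := RO ℤ) (M := L)).comp (exL m))
    { toFun := fun a => AddMonoidAlgebra.single a.toAdd (mz (gam a.toAdd) 1)
      map_one' := by
        rw [toAdd_one, map_zero gam]
        rfl
      map_mul' := fun a b => by
        rw [AddMonoidAlgebra.single_mul_single, toAdd_mul, map_add gam, mz_mul, one_mul] }
    (fun _ _ => Commute.all _ _)

theorem psi_single (gam : L →+ ℤ) (m : ℕ) (a : L) (q : RO ℤ) :
    psi gam m (AddMonoidAlgebra.single a q) =
      AddMonoidAlgebra.single a (exL m q * mz (gam a) 1) := by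
  simp [psi, AddMonoidAlgebra.single_mul_single]

theorem psi_coeff (gam : L →+ ℤ) (m : ℕ) (A : AO ℤ L) (a : L) :
    (psi gam m A).coeff a = exL m (A.coeff a) * mz (gam a) 1 := by
  classical
  let f : AO ℤ L →+ RO ℤ :=
    { toFun := fun A => (psi gam m A).coeff a
      map_zero' := by rw [map_zero]; rfl
      map_add' := fun x y => by rw [map_add]; rfl }
  let g : AO ℤ L →+ RO ℤ :=
    { toFun := fun A => exL m (A.coeff a) * mz (gam a) 1
      map_zero' := by
        change exL m (0 : RO ℤ) * _ = 0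
        rw [map_zero, zero_mul]
      map_add' := fun x y => by
        change exL m (x.coeff a + y.coeff a) * _ = _
        rw [map_add, add_mul] }
  refine eq_of_single f g A fun b _ => ?_
  change (psi gam m (AddMonoidAlgebra.single b (A.coeff b))).coeff a =
    exL m ((AddMonoidAlgebra.single b (A.coeff b) : AO ℤ L).coeff a) * mz (gam a) 1
  rw [psi_single, AddMonoidAlgebra.coeff_single, AddMonoidAlgebra.coeff_single]
  by_cases h : b = a
  · rw [h, Finsupp.single_eq_same, Finsupp.single_eq_same]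
  · rw [Finsupp.single_apply, if_neg h, Finsupp.single_apply, if_neg h, map_zero, zero_mul]

theorem mz_ne {n : ℤ} {c : ℤ} (hc : c ≠ 0) : mz n c ≠ 0 := by
  intro h
  have h1 : (mz n c).coeff n = (0 : RO ℤ).coeff n := by rw [h]
  unfold mz at h1
  rw [AddMonoidAlgebra.coeff_single, Finsupp.single_eq_same] at h1
  exact hc h1

theorem psi_coeff_ne {gam : L →+ ℤ} {m : ℕ} (hm : 0 < m) (A : AO ℤ L) (a : L) :
    (psi gam m A).coeff a ≠ 0 ↔ A.coeff a ≠ 0 := by
  rw [psi_coeff]
  constructor
  · intro h h0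
    apply h
    rw [h0, map_zero, zero_mul]
  · intro h h0
    apply h
    rcases mul_eq_zero.mp h0 with h1 | h1
    · exact exL_inj hm h1
    · exact absurd h1 (mz_ne one_ne_zero)

theorem psi_inj {gam : L →+ ℤ} {m : ℕ} (hm : 0 < m) {A B : AO ℤ L}
    (h : psi gam m A = psi gam m B) : A = B := by
  have h1 : psi gam m (A - B) = 0 := by rw [map_sub, h, sub_self]
  have h2 : ∀ a, (A - B).coeff a = 0 := by
    intro a
    by_contra hc
    apply (psi_coeff_ne (gam := gam) hm (A - B) a).mpr hc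
    rw [h1]
    rfl
  have h3 : A - B = 0 := by
    apply AddMonoidAlgebra.ext
    apply Finsupp.ext
    intro a
    rw [h2 a]
    rfl
  exact sub_eq_zero.mp h3

theorem supp_psi {gam : L →+ ℤ} {m : ℕ} (hm : 0 < m) (A : AO ℤ L) :
    supp (psi gam m A) = supp A := by
  ext a
  exact psi_coeff_ne hm A a

theorem mz_unit (n : ℤ) : IsUnit (mz n (1 : ℤ)) := exL_T_unit n

/-- a unit of the form `u z^k`, as an element -/
theorem mz_isUnit {n c : ℤ} (hc : IsUnit c) : IsUnit (mz n c) := by
  obtain ⟨c, rfl⟩ := hc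
  refine IsUnit.of_mul_eq_one (mz (-n) ((c⁻¹ : ℤˣ) : ℤ)) ?_
  rw [mz_mul, add_neg_cancel, Units.mul_inv]
  rfl

/-- `q(z^m) = p(z^m) c z^k`, `p ≠ 0`: the exponent `k` is a multiple of `m`. -/
theorem exL_shift {m : ℕ} (hm : 0 < m) {p q : RO ℤ} {k c : ℤ} (hc : c ≠ 0) (hp : p ≠ 0)
    (h : exL m q = exL m p * mz k c) : (m : ℤ) ∣ k := by
  by_contra hk
  apply hp
  apply AddMonoidAlgebra.ext
  ext i
  have h1 : (exL m q).coeff ((m : ℤ) * i + k) = 0 := by
    apply exL_coeff_not
    intro hd
    exact hk ((Int.dvd_add_right (dvd_mul_right _ _)).mp hd)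
  rw [h] at h1
  have h2 : (exL m p * mz k c).coeff ((m : ℤ) * i + k) = p.coeff i * c := by
    rw [mul_comm]
    unfold mz
    rw [AddMonoidAlgebra.coeff_single_mul_eq_mul_coeff ((m : ℤ) * i), exL_coeff hm, mul_comm]
    intro m' _
    constructor
    · intro h3
      linarith
    · intro h3
      rw [h3]
      ring
  rw [h2] at h1
  rcases mul_eq_zero.mp h1 with h3 | h3
  · rw [h3]; rfl
  · exact absurd h3 hc

end psi

section alg

variable {L : Type} [AddCommGroup L] [Module.Free ℤ L] [Module.Finite ℤ L]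

/-- Two elements whose images differ by a unit differ by a unit. -/
theorem psi_unit (hU : UnitAS) {gam : L →+ ℤ} {m : ℕ} (hm : 0 < m) {A B U : AO ℤ L} (hA : A ≠ 0)
    (hu : IsUnit U) (h : psi gam m A * U = psi gam m B) :
    ∃ V : AO ℤ L, IsUnit V ∧ A * V = B := by
  obtain ⟨b, c, hc, hUe⟩ := (hU ℤ L U).mp hu
  obtain ⟨c, rfl⟩ := hc
  obtain ⟨k, u, hku⟩ := unit_mz c
  -- comparison of the coefficients
  have key : ∀ x : L, exL m (B.coeff (x + b)) = exL m (A.coeff x) * mz (k - gam b) (u : ℤ) := by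
    intro x
    have h1 := congrArg (fun F : AO ℤ L => F.coeff (x + b)) h
    change (psi gam m A * U).coeff (x + b) = (psi gam m B).coeff (x + b) at h1
    rw [hUe, AddMonoidAlgebra.coeff_mul_single_eq_coeff_mul x, psi_coeff, psi_coeff, hku] at h1
    · have h2 : mz (gam (x + b)) (1 : ℤ) * mz (-gam (x + b)) 1 = 1 := by
        rw [mz_mul, add_neg_cancel, one_mul]; rfl
      calc exL m (B.coeff (x + b))
          = exL m (B.coeff (x + b)) * (mz (gam (x + b)) (1 : ℤ) * mz (-gam (x + b)) 1) := by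
            rw [h2, mul_one]
        _ = (exL m (B.coeff (x + b)) * mz (gam (x + b)) (1 : ℤ)) * mz (-gam (x + b)) 1 := by ring
        _ = exL m (A.coeff x) * ((mz (gam x) 1 * mz k (u : ℤ)) * mz (-gam (x + b)) 1) := by
            rw [← h1]; ring
        _ = _ := by
            rw [mz_mul, mz_mul, map_add, one_mul, mul_one]
            congr 2
            ring
    · intro a _
      constructor
      · intro h3; exact add_right_cancel h3
      · intro h3; rw [h3]
  obtain ⟨x, hx⟩ : ∃ x, A.coeff x ≠ 0 := by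
    by_contra hcon
    push Not at hcon
    apply hA
    apply AddMonoidAlgebra.ext
    apply Finsupp.ext
    intro a
    rw [hcon a]
    rfl
  obtain ⟨j, hj⟩ := exL_shift hm u.ne_zero hx (key x)
  refine ⟨AddMonoidAlgebra.single b (mz j (u : ℤ)), ?_, ?_⟩
  · exact (hU ℤ L _).mpr ⟨b, _, mz_isUnit u.isUnit, rfl⟩
  · apply AddMonoidAlgebra.ext
    apply Finsupp.ext
    intro y
    obtain ⟨x, rfl⟩ : ∃ x, y = x + b := ⟨y - b, by abel⟩
    rw [AddMonoidAlgebra.coeff_mul_single_eq_coeff_mul x]
    · have h1 := key x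
      rw [hj, ← exL_mz, ← map_mul] at h1
      have h2 : exL m (A.coeff x * mz j (u : ℤ) - B.coeff (x + b)) = 0 := by
        rw [map_sub, h1, sub_self]
      exact sub_eq_zero.mp (exL_inj hm h2)
    · intro a _
      constructor
      · intro h3; exact add_right_cancel h3
      · intro h3; rw [h3]

theorem psi_isUnit (hU : UnitAS) {gam : L →+ ℤ} {m : ℕ} (hm : 0 < m) {A : AO ℤ L}
    (h : IsUnit (psi gam m A)) : IsUnit A := by
  obtain ⟨W, hW⟩ := h.exists_right_inv
  have hWu : IsUnit W := IsUnit.of_mul_eq_one (psi gam m A) (by rw [mul_comm, hW])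
  have hA : A ≠ 0 := by
    rintro rfl
    rw [map_zero, zero_mul] at hW
    exact zero_ne_one hW
  obtain ⟨V, -, hV⟩ := psi_unit hU hm hA hWu (B := 1) (by rw [hW, map_one])
  exact IsUnit.of_mul_eq_one V hV

/-- existence of the preimage -/
theorem psi_ex (gam : L →+ ℤ) (n : ℤ) {m : ℕ} (hm : 0 < m) (D : AO ℤ L)
    (h : ∀ a k, (D.coeff a).coeff k ≠ 0 → ∃ j : ℤ, k = gam a + n + m * j) :
    ∃ D' : AO ℤ L, D = cst (mz n 1) * psi gam m D' ∧
      ∀ a j, (D'.coeff a).coeff j = (D.coeff a).coeff (gam a + n + m * j) := by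
  classical
  have h1 : ∀ a, ∃ q : RO ℤ, D.coeff a = mz (gam a + n) 1 * exL m q := by
    intro a
    refine exists_exL hm (D.coeff a) (gam a + n) fun k hk => ?_
    obtain ⟨j, hj⟩ := h a k hk
    exact ⟨j, by rw [hj]; ring⟩
  choose q hq using h1
  have hq0 : ∀ a, q a ≠ 0 → a ∈ D.coeff.support := by
    intro a ha
    rw [Finsupp.mem_support_iff]
    intro h0
    apply ha
    have h2 := hq a
    rw [h0] at h2
    rcases mul_eq_zero.mp h2.symm with h3 | h3
    · exact absurd h3 (mz_ne one_ne_zero)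
    · exact exL_inj hm h3
  refine ⟨AddMonoidAlgebra.ofCoeff (Finsupp.onFinset D.coeff.support q hq0), ?_, ?_⟩
  · apply AddMonoidAlgebra.ext
    apply Finsupp.ext
    intro a
    rw [H96.cst_mul_coeff, psi_coeff]
    change D.coeff a = mz n 1 * (exL m (q a) * mz (gam a) 1)
    rw [hq a, mul_comm (exL m (q a)), ← mul_assoc, mz_mul, one_mul, add_comm n]
  · intro a j
    change (q a).coeff j = _
    rw [hq a, mz_mul_coeff, ← exL_coeff hm (q a) j]
    congr 1
    ring

end alg

end Pool.Agent.B5.Uf07
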