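import Pool.Agent.Lib.MP_b5021c_nt.IfaceUF
import Pool.Agent.Lib.MP_b5021c_nt.IfaceL1

/-!
# Lemma UF, row UF_W, one variable: the zero of `p1 - u t p0`, `u = 1, -1`
-/

namespace Pool.Agent.B5.Uf07

open Polynomial

theorem map_emb' (p : ℤ[X]) (z : ℂ) :
    (p.map (Coef.emb : ℤ →+* ℂ)).eval z = aeval z p := by
  rw [eval_map]
  rfl

theorem w_one (hPc : PCZS) {p0 p1 : ℤ[X]} {N : ℕ} (hN : 3 ≤ N)
    (hp : p0 = C ((N : ℤ) - 1) + p1) (p10 : p1.coeff 0 = 1)
    (hle : ∀ z : ℂ, ‖z‖ = 1 → ‖aeval z p1‖ ≤ ‖aeval z p0‖)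
    (h0 : ∀ z : ℂ, ‖z‖ ≤ 1 → aeval z p0 ≠ 0) {u : ℤ} (hu : u = 1 ∨ u = -1) :
    ∃ r : ℝ, 0 < r ∧ r < 1 ∧
      ((p1 - C u * X * p0).map (Coef.emb : ℤ →+* ℂ)).roots.filter (fun x => ‖x‖ < 1) =
        {(((u : ℝ) * r : ℝ) : ℂ)} ∧
      ∀ x : ℝ, r ≤ x → x < 1 → (aeval ((u : ℝ) * x) (p1 - C u * X * p0) : ℝ) ≤ 0 := by
  classical
  have hN' : (3 : ℝ) ≤ N := by exact_mod_cast hN
  have hu2 : (u : ℝ) * u = 1 := by rcases hu with h | h <;> rw [h] <;> norm_num
  have hun : ‖(u : ℂ)‖ = 1 := by rcases hu with h | h <;> rw [h] <;> simp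
  have hu0 : (u : ℂ) ≠ 0 := by
    intro h
    rw [h, norm_zero] at hun
    exact zero_ne_one hun
  set w : ℤ[X] := p1 - C u * X * p0 with hw
  have hwc0 : w.coeff 0 = 1 := by
    rw [hw, coeff_sub, p10, mul_assoc, coeff_C_mul, coeff_X_mul_zero, mul_zero, sub_zero]
  -- count
  have hp0ne : p0.map (Coef.emb : ℤ →+* ℂ) ≠ 0 := by
    intro h
    apply h0 0 (by simp)
    rw [← map_emb', h, eval_zero]
  have hcard : ((w.map (Coef.emb : ℤ →+* ℂ)).roots.filter (fun x => ‖x‖ < 1)).card ≤ 1 := by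
    have hq : w.map (Coef.emb : ℤ →+* ℂ) =
        C (-(u : ℂ)) * (X * p0.map (Coef.emb : ℤ →+* ℂ)) + p1.map (Coef.emb : ℤ →+* ℂ) := by
      rw [hw, Polynomial.map_sub, Polynomial.map_mul, Polynomial.map_mul, Polynomial.map_X,
        Polynomial.map_C]
      have h1 : (Coef.emb : ℤ →+* ℂ) u = (u : ℂ) := rfl
      rw [h1, C_neg]
      ring
    rw [hq]
    refine hPc 0 (C (-(u : ℂ)) * (X * p0.map (Coef.emb : ℤ →+* ℂ)))
      (p1.map (Coef.emb : ℤ →+* ℂ)) ?_ ?_ ?_ ?_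
    · rw [roots_C_mul _ (neg_ne_zero.mpr hu0), roots_mul (mul_ne_zero X_ne_zero hp0ne), roots_X,
        Multiset.filter_add]
      have h2 : (p0.map (Coef.emb : ℤ →+* ℂ)).roots.filter (fun x => ‖x‖ < 1) = 0 := by
        rw [Multiset.filter_eq_nil]
        intro a ha hn
        rw [mem_roots hp0ne, IsRoot.def, map_emb'] at ha
        exact h0 a hn.le ha
      rw [h2, add_zero, Multiset.filter_singleton, if_pos (by simp)]
    · intro z hz
      rw [eval_mul, eval_mul, eval_C, eval_X, map_emb']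
      refine mul_ne_zero (neg_ne_zero.mpr hu0) (mul_ne_zero ?_ (h0 z hz.le))
      intro h
      rw [h, norm_zero] at hz
      exact zero_ne_one hz
    · intro z hz
      rw [eval_mul, eval_mul, eval_C, eval_X, map_emb', map_emb', norm_mul, norm_mul, norm_neg,
        hun, hz, one_mul, one_mul]
      exact hle z hz
    · rw [← hq]
      intro h
      have h2 : (w.map (Coef.emb : ℤ →+* ℂ)).coeff 0 = 0 := by rw [h, coeff_zero]
      rw [coeff_map, hwc0, map_one] at h2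
      exact one_ne_zero h2
  -- the real function
  set g : ℝ → ℝ := fun r => (aeval ((u : ℝ) * r) w : ℝ) with hg
  have hgc : Continuous g := (Polynomial.continuous_aeval w).comp (continuous_const.mul continuous_id)
  have hg0 : g 0 = 1 := by
    rw [hg]
    simp only [mul_zero]
    rw [aeval_def, eval₂_at_zero, hwc0]
    norm_num
  have hg1 : g 1 < 0 := by
    rw [hg]
    simp only [mul_one]
    rw [hw, map_sub, map_mul, map_mul, aeval_X, aeval_C, hp, map_add, aeval_C]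
    simp only [eq_intCast]
    rw [hu2]
    push_cast
    linarith
  -- roots
  have hroot : ∀ r : ℝ, 0 < r → r < 1 → g r = 0 → (((u : ℝ) * r : ℝ) : ℂ) ∈
      (w.map (Coef.emb : ℤ →+* ℂ)).roots.filter (fun x => ‖x‖ < 1) := by
    intro r hr0 hr1 hr
    rw [Multiset.mem_filter, mem_roots]
    · refine ⟨?_, ?_⟩
      · rw [IsRoot.def, map_emb']
        have h2 : (aeval ((((u : ℝ) * r : ℝ) : ℂ)) w : ℂ) = ((g r : ℝ) : ℂ) := by
          have := Polynomial.aeval_algebraMap_apply ℂ ((u : ℝ) * r) w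
          exact this
        rw [h2, hr, Complex.ofReal_zero]
      · rw [Complex.norm_real, norm_mul, Real.norm_eq_abs, Real.norm_eq_abs, abs_of_pos hr0]
        have : |(u : ℝ)| = 1 := by rcases hu with h | h <;> rw [h] <;> norm_num
        rw [this, one_mul]
        exact hr1
    · intro h
      have h2 : (w.map (Coef.emb : ℤ →+* ℂ)).coeff 0 = 0 := by rw [h, coeff_zero]
      rw [coeff_map, hwc0, map_one] at h2
      exact one_ne_zero h2
  obtain ⟨r, ⟨hr0, hr1⟩, hr⟩ := intermediate_value_Icc' (show (0 : ℝ) ≤ 1 by norm_num)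
    hgc.continuousOn ⟨hg1.le, by rw [hg0]; norm_num⟩
  have hr0' : 0 < r := by
    rcases eq_or_lt_of_le hr0 with h | h
    · rw [← h, hg0] at hr
      exact absurd hr one_ne_zero
    · exact h
  have hr1' : r < 1 := by
    rcases eq_or_lt_of_le hr1 with h | h
    · rw [h] at hr
      exact absurd hr hg1.ne
    · exact h
  have hmem := hroot r hr0' hr1' hr
  have hS : (w.map (Coef.emb : ℤ →+* ℂ)).roots.filter (fun x => ‖x‖ < 1) =
      {(((u : ℝ) * r : ℝ) : ℂ)} := by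
    have h2 : 0 < ((w.map (Coef.emb : ℤ →+* ℂ)).roots.filter (fun x => ‖x‖ < 1)).card :=
      Multiset.card_pos_iff_exists_mem.mpr ⟨_, hmem⟩
    obtain ⟨b, hb⟩ := Multiset.card_eq_one.mp (le_antisymm hcard h2)
    rw [hb, Multiset.mem_singleton] at hmem
    rw [hb, hmem]
  refine ⟨r, hr0', hr1', hS, ?_⟩
  intro x hrx hx1
  rcases eq_or_lt_of_le hrx with h | h
  · rw [← h]
    exact hr.le
  · by_contra hcon
    push Not at hcon
    obtain ⟨y, ⟨hy0, hy1⟩, hy⟩ := intermediate_value_Icc' hx1.le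
      hgc.continuousOn ⟨hg1.le, hcon.le⟩
    have hy1' : y < 1 := by
      rcases eq_or_lt_of_le hy1 with h | h
      · rw [h] at hy
        exact absurd hy hg1.ne
      · exact h
    have h3 := hroot y (by linarith) hy1' hy
    rw [hS, Multiset.mem_singleton, Complex.ofReal_inj] at h3
    have h4 : y = r := by
      have h5 : (u : ℝ) * (u * y) = u * (u * r) := by rw [h3]
      rw [← mul_assoc, ← mul_assoc, hu2, one_mul, one_mul] at h5
      exact h5
    linarith

/-- The end: the sign at `x` gives the bound. -/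
theorem w_end {p0 p1 : ℤ[X]} {N : ℕ} {x : ℝ} {u : ℤ} (hp : p0 = C ((N : ℤ) - 1) + p1)
    (hx : 0 < x) (hx1 : x < 1) (hxN : x⁻¹ - x = N - 1) (hu : u = 1 ∨ u = -1)
    (h : (aeval ((u : ℝ) * x) (p1 - C u * X * p0) : ℝ) ≤ 0) :
    (aeval ((u : ℝ) * x) p0 : ℝ) ≤ N + x := by
  have hu2 : (u : ℝ) * u = 1 := by rcases hu with h | h <;> rw [h] <;> norm_num
  have h1 : (aeval ((u : ℝ) * x) p1 : ℝ) = aeval ((u : ℝ) * x) p0 - (N - 1) := by
    rw [hp, map_add, aeval_C]
    simp only [eq_intCast]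
    push_cast
    ring
  rw [map_sub, map_mul, map_mul, aeval_X, aeval_C, h1] at h
  simp only [eq_intCast] at h
  have h2 : (u : ℝ) * ((u : ℝ) * x) = x := by rw [← mul_assoc, hu2, one_mul]
  rw [h2] at h
  have h3 : 1 - x ^ 2 = (N - 1) * x := by
    have h4 : x * (x⁻¹ - x) = x * ((N : ℝ) - 1) := by rw [hxN]
    have h5 : x * x⁻¹ = 1 := mul_inv_cancel₀ hx.ne'
    nlinarith
  by_contra hcon
  push Not at hcon
  have h4 : (N + x) * (1 - x) < (aeval ((u : ℝ) * x) p0 : ℝ) * (1 - x) :=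
    mul_lt_mul_of_pos_right hcon (by linarith)
  nlinarith

end Pool.Agent.B5.Uf07
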